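import Mathlib
import Pool.Agent.H5.LinDyn
import Pool.Agent.H5.SymmChaos

/-!
Chaoticity of an `L^p` multiplier on `X = G / K` passes from `L^{p₂}` to `L^{p₁}`
for `1 ≤ p₂ ≤ p₁ < ∞`.
-/

namespace Pool.Agent.Results.MP_570bb5_an.ChaosTransfer

open MeasureTheory
open scoped ENNReal
open Pool.Agent.H5.LinDyn

/-- Let `G` be a unimodular locally compact Polish (i.e. locally compact, second countable,
Hausdorff) group with bi-invariant Haar measure `ν`, `K` a compact subgroup and `μ` a `G`-invariant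
Borel measure on `X = G / K`, finite on compact sets. Let `1 ≤ p₂ ≤ p₁ < ∞` and let `T₁`, `T₂` be
bounded operators on `L^{p₁}(X)`, `L^{p₂}(X)`; let `T₁` commute with all translations `hT₁`, and
suppose that the `f ∈ L^{p₂}(X)` that lie in `L^{p₁}(X)` and satisfy `T₁ f = T₂ f` are dense in
`L^{p₂}(X)` `hT`. If `T₂` is chaotic, so is `T₁`. -/
theorem result {G : Type*} [Group G] [TopologicalSpace G] [IsTopologicalGroup G]
    [LocallyCompactSpace G] [PolishSpace G] [MeasurableSpace G] [BorelSpace G]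
    (ν : Measure G) [ν.IsHaarMeasure] [ν.IsMulRightInvariant]
    (K : Subgroup G) (hK : IsCompact (K : Set G))
    (μ : Measure (G ⧸ K)) [SMulInvariantMeasure G (G ⧸ K) μ] [IsFiniteMeasureOnCompacts μ]
    (p₁ p₂ : ℝ≥0∞) [Fact (1 ≤ p₁)] [Fact (1 ≤ p₂)] (h21 : p₂ ≤ p₁) (h1 : p₁ < ∞)
    (T₁ : Lp ℂ p₁ μ →L[ℂ] Lp ℂ p₁ μ) (T₂ : Lp ℂ p₂ μ →L[ℂ] Lp ℂ p₂ μ)
    (hT₁ : ∀ (g : G) (f h : Lp ℂ p₁ μ), (∀ᵐ x ∂μ, h x = f (g • x)) →
      ∀ᵐ x ∂μ, T₁ h x = T₁ f (g • x))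
    (hT : Dense {f : Lp ℂ p₂ μ | ∃ f' : Lp ℂ p₁ μ,
      (∀ᵐ x ∂μ, f' x = f x) ∧ ∀ᵐ x ∂μ, T₁ f' x = T₂ f x})
    (h : IsChaotic T₂) : IsChaotic T₁ :=
  ⟨Pool.Agent.H5.SymmChaos.hypercyclic_quotient ν K hK μ h21 h1.ne T₁ T₂ hT₁ hT h.1,
    Pool.Agent.H5.SymmChaos.periodic_quotient ν K hK μ h21 h1.ne T₁ T₂ hT₁ hT h.2⟩

end Pool.Agent.Results.MP_570bb5_an.ChaosTransfer
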